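import Pool.Agent.MP_961ca8_al.H18.Iface

/-!
A subring hiding a prime ideal.
-/

namespace Pool.Agent.MP_961ca8_al.H90

open Cardinal Polynomial

/-- The corrected statement: the prime subring has to meet `Q` trivially. -/
def Hide2Stmt : Prop :=
  ∀ (T : Type) [CommRing T] (Q : Ideal T), (∀ n : ℤ, (n : T) ∈ Q → (n : T) = 0) → Q.IsPrime →
    (∀ c : T, c ∉ Q → ∀ x : T, c * x = 0 → x = 0) →
    ℵ₀ < Cardinal.mk (T ⧸ Q) → Cardinal.mk T ≤ Cardinal.mk (T ⧸ Q) →
    ∃ A : Subring T, (∀ a ∈ A, a ∈ Q → a = 0) ∧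
      (∀ f : T, f ∉ Q → ∀ t : T, ∃ a ∈ A, ∃ z : T, t = a + f * z) ∧
      (∀ f ∈ A, f ≠ 0 → ∀ z : T, f * z ∈ A → z ∈ A)

/-- The subring generated by `S` meets `Q` trivially. -/
def Good {T : Type} [CommRing T] (Q : Ideal T) (S : Set T) : Prop :=
  ∀ x ∈ Subring.closure S, x ∈ Q → x = 0

theorem card_closure {D : Type} [CommRing D] (S : Set D) :
    Cardinal.mk (Subring.closure S) ≤ max (Cardinal.mk S) ℵ₀ := by
  have h := Algebra.cardinalMk_adjoin_le (R := ℤ) S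
  have e : ∀ x : D, x ∈ Subring.closure S ↔ x ∈ Algebra.adjoin ℤ S := by
    intro x
    rw [Algebra.adjoin_int]
    rfl
  have e2 : Cardinal.mk (Subring.closure S) = Cardinal.mk (Algebra.adjoin ℤ S) :=
    Cardinal.mk_congr (Equiv.subtypeEquivRight e)
  rw [e2]
  refine h.trans ?_
  simp only [Cardinal.mk_int, sup_le_iff]
  exact ⟨⟨le_max_right _ _, le_max_left _ _⟩, le_max_right _ _⟩

theorem exists_poly {T : Type} [CommRing T] (S : Set T) (a x : T)
    (hx : x ∈ Subring.closure (insert a S)) :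
    ∃ P : (Subring.closure S)[X], x = P.eval₂ (Subring.closure S).subtype a := by
  induction hx using Subring.closure_induction with
  | mem y hy =>
    rcases hy with rfl | hy
    · exact ⟨X, by simp⟩
    · exact ⟨C ⟨y, Subring.subset_closure hy⟩, by simp⟩
  | zero => exact ⟨0, by simp⟩
  | one => exact ⟨1, by simp⟩
  | add y z _ _ hy hz =>
    obtain ⟨P, rfl⟩ := hy
    obtain ⟨R, rfl⟩ := hz
    exact ⟨P + R, by simp [eval₂_add]⟩
  | neg y _ hy =>
    obtain ⟨P, rfl⟩ := hy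
    exact ⟨-P, by simp [eval₂_neg]⟩
  | mul y z _ _ hy hz =>
    obtain ⟨P, rfl⟩ := hy
    obtain ⟨R, rfl⟩ := hz
    exact ⟨P * R, by simp [eval₂_mul]⟩

theorem step {T : Type} [CommRing T] (Q : Ideal T) (hQ : Q.IsPrime)
    (h1 : ℵ₀ < Cardinal.mk (T ⧸ Q)) (S : Set T) (t f : T) :
    ∃ a : T, Cardinal.mk S < Cardinal.mk (T ⧸ Q) →
      (f ∉ Q → ∃ z : T, t = a + f * z) ∧ (Good Q S → Good Q (insert a S)) := by
  classical
  by_cases hS : Cardinal.mk S < Cardinal.mk (T ⧸ Q)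
  swap
  · exact ⟨0, fun h => absurd h hS⟩
  haveI := hQ
  set π := Ideal.Quotient.mk Q with hπ
  set R := Subring.closure (π '' S) with hR
  have hRc : max (Cardinal.mk R) ℵ₀ < Cardinal.mk (T ⧸ Q) := by
    refine max_lt ((card_closure _).trans_lt (max_lt (Cardinal.mk_image_le.trans_lt hS) h1)) h1
  have halg := (Algebraic.cardinalMk_le_max R (T ⧸ Q)).trans_lt hRc
  obtain ⟨g, hg, hgf⟩ : ∃ g : T, g ∉ Q ∧ (f ∉ Q → g = f) := by
    by_cases hf : f ∈ Q
    · exact ⟨1, fun h => hQ.ne_top ((Ideal.eq_top_iff_one Q).2 h), fun h => absurd hf h⟩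
    · exact ⟨f, hf, fun _ => rfl⟩
  have hg0 : π g ≠ 0 := fun h => hg (Ideal.Quotient.eq_zero_iff_mem.1 h)
  obtain ⟨d, hd⟩ : ∃ d : T ⧸ Q, ¬ IsAlgebraic R (π t - π g * d) := by
    by_contra hcon
    push Not at hcon
    have hinj : Function.Injective
        (fun d : T ⧸ Q => (⟨π t - π g * d, hcon d⟩ : {x : T ⧸ Q // IsAlgebraic R x})) := by
      intro d d' h
      have h' : π t - π g * d = π t - π g * d' := congrArg Subtype.val h
      exact mul_left_cancel₀ hg0 (sub_right_injective h')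
    exact absurd (Cardinal.mk_le_of_injective hinj) (not_le.2 halg)
  obtain ⟨z, rfl⟩ := Ideal.Quotient.mk_surjective d
  refine ⟨t - g * z, fun _ => ⟨fun hf => ⟨z, by rw [hgf hf]; ring⟩, fun hG x hx hxQ => ?_⟩⟩
  obtain ⟨P, rfl⟩ := exists_poly S _ x hx
  have hmem : ∀ y : Subring.closure S, π y ∈ R := by
    intro y
    rw [hR, ← RingHom.map_closure]
    exact ⟨y, y.2, rfl⟩
  let ρ : Subring.closure S →+* R := (π.comp (Subring.closure S).subtype).codRestrict R hmem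
  have hP : P.map ρ = 0 := by
    by_contra hne
    refine hd ⟨P.map ρ, hne, ?_⟩
    have h0 : π (P.eval₂ (Subring.closure S).subtype (t - g * z)) = 0 :=
      Ideal.Quotient.eq_zero_iff_mem.2 hxQ
    rw [hom_eval₂] at h0
    rw [aeval_def, eval₂_map]
    rw [map_sub, map_mul] at h0
    exact h0
  have hP0 : P = 0 := by
    ext k
    have h2 : ρ (P.coeff k) = 0 := by rw [← coeff_map, hP, coeff_zero]
    have h3 : π (P.coeff k) = 0 := congrArg Subtype.val h2
    have := hG _ (P.coeff k).2 (Ideal.Quotient.eq_zero_iff_mem.1 h3)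
    simpa using this
  rw [hP0, eval₂_zero]

theorem good_union {T W : Type} [CommRing T] [LinearOrder W] (Q : Ideal T) (a : W → T)
    (U : Set W) (h0 : Good Q ∅) (hU : ∀ j ∈ U, Good Q (a '' Set.Iic j)) : Good Q (a '' U) := by
  have key : ∀ x ∈ Subring.closure (a '' U),
      x ∈ Subring.closure (∅ : Set T) ∨ ∃ j ∈ U, x ∈ Subring.closure (a '' Set.Iic j) := by
    have two : ∀ x y : T,
        (x ∈ Subring.closure (∅ : Set T) ∨ ∃ j ∈ U, x ∈ Subring.closure (a '' Set.Iic j)) →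
        (y ∈ Subring.closure (∅ : Set T) ∨ ∃ j ∈ U, y ∈ Subring.closure (a '' Set.Iic j)) →
        (x ∈ Subring.closure (∅ : Set T) ∧ y ∈ Subring.closure (∅ : Set T)) ∨
          ∃ j ∈ U, x ∈ Subring.closure (a '' Set.Iic j) ∧
            y ∈ Subring.closure (a '' Set.Iic j) := by
      intro x y hx hy
      rcases hx with hx | ⟨j, hj, hx⟩ <;> rcases hy with hy | ⟨k, hk, hy⟩
      · exact Or.inl ⟨hx, hy⟩
      · exact Or.inr ⟨k, hk, Subring.closure_mono (Set.empty_subset _) hx, hy⟩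
      · exact Or.inr ⟨j, hj, hx, Subring.closure_mono (Set.empty_subset _) hy⟩
      · rcases le_total j k with h | h
        · exact Or.inr ⟨k, hk,
            Subring.closure_mono (Set.image_mono (Set.Iic_subset_Iic.2 h)) hx, hy⟩
        · exact Or.inr ⟨j, hj, hx,
            Subring.closure_mono (Set.image_mono (Set.Iic_subset_Iic.2 h)) hy⟩
    intro x hx
    induction hx using Subring.closure_induction with
    | mem y hy =>
      obtain ⟨j, hj, rfl⟩ := hy
      exact Or.inr ⟨j, hj, Subring.subset_closure ⟨j, le_refl j, rfl⟩⟩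
    | zero => exact Or.inl (zero_mem _)
    | one => exact Or.inl (one_mem _)
    | add y z _ _ hy hz =>
      rcases two y z hy hz with ⟨h1, h2⟩ | ⟨j, hj, h1, h2⟩
      · exact Or.inl (add_mem h1 h2)
      · exact Or.inr ⟨j, hj, add_mem h1 h2⟩
    | neg y _ hy =>
      rcases hy with h1 | ⟨j, hj, h1⟩
      · exact Or.inl (neg_mem h1)
      · exact Or.inr ⟨j, hj, neg_mem h1⟩
    | mul y z _ _ hy hz =>
      rcases two y z hy hz with ⟨h1, h2⟩ | ⟨j, hj, h1, h2⟩
      · exact Or.inl (mul_mem h1 h2)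
      · exact Or.inr ⟨j, hj, mul_mem h1 h2⟩
  intro x hx hxQ
  rcases key x hx with h | ⟨j, hj, h⟩
  · exact h0 x h hxQ
  · exact hU j hj x h hxQ

theorem exists_family {T : Type} [CommRing T] (Q : Ideal T) (hQ : Q.IsPrime) (h0 : Good Q ∅)
    (h1 : ℵ₀ < Cardinal.mk (T ⧸ Q)) (h2 : Cardinal.mk T ≤ Cardinal.mk (T ⧸ Q)) :
    ∃ S : Set T, Good Q S ∧ ∀ f : T, f ∉ Q → ∀ t : T, ∃ a ∈ S, ∃ z : T, t = a + f * z := by
  obtain ⟨lo, wf, hord⟩ := Cardinal.exists_ord_eq_type_lt (T × T)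
  choose st hst using step Q hQ h1
  let a : T × T → T := (wellFounded_lt (α := T × T)).fix
    (fun i prev => st {x | ∃ j, ∃ h : j < i, prev j h = x} i.1 i.2)
  have ha : ∀ i, a i = st (a '' Set.Iio i) i.1 i.2 := by
    intro i
    have e : a i = st {x | ∃ j, ∃ _ : j < i, a j = x} i.1 i.2 := WellFounded.fix_eq _ _ i
    rw [e]
    congr 1
    ext x
    simp [Set.mem_image]
  have hinf : ℵ₀ ≤ Cardinal.mk T := h1.le.trans (Cardinal.mk_le_of_surjective
    (Ideal.Quotient.mk_surjective (I := Q)))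
  have hcard : ∀ i : T × T, Cardinal.mk (a '' Set.Iio i) < Cardinal.mk (T ⧸ Q) := by
    intro i
    refine Cardinal.mk_image_le.trans_lt ((Cardinal.mk_Iio_lt i hord).trans_le ?_)
    rw [Cardinal.mk_prod, Cardinal.lift_id, Cardinal.mul_eq_self hinf]
    exact h2
  have hgood : ∀ i : T × T, Good Q (a '' Set.Iic i) := by
    intro i
    induction i using WellFoundedLT.induction with
    | ind i ih =>
      have h3 := (hst _ i.1 i.2 (hcard i)).2 (good_union Q a (Set.Iio i) h0 ih)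
      rw [← ha i, ← Set.image_insert_eq, Set.Iio_insert] at h3
      exact h3
  refine ⟨a '' Set.univ, good_union Q a Set.univ h0 (fun j _ => hgood j), fun f hf t => ?_⟩
  obtain ⟨z, hz⟩ := (hst _ t f (hcard (t, f))).1 hf
  exact ⟨a (t, f), ⟨_, trivial, rfl⟩, z, by rw [ha (t, f)]; exact hz⟩

theorem hide2 : Hide2Stmt := by
  intro T _ Q hn hQ nzd h1 h2
  have h0 : Good Q ∅ := by
    intro x hx hxQ
    rw [Subring.closure_empty, Subring.mem_bot] at hx
    obtain ⟨n, rfl⟩ := hx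
    exact hn n hxQ
  obtain ⟨S, hS, hsur⟩ := exists_family Q hQ h0 h1 h2
  set A0 := Subring.closure S with hA0
  have h1Q : (1 : T) ∉ Q := fun h => hQ.ne_top ((Ideal.eq_top_iff_one Q).2 h)
  have h10 : (1 : T) ≠ 0 := fun h => h1Q (h ▸ Q.zero_mem)
  have hmul : ∀ b ∈ A0, b ≠ 0 → ∀ c : T, c ≠ 0 → b * c ≠ 0 :=
    fun b hb hb0 c hc h => hc (nzd b (fun hq => hb0 (hS b hb hq)) c h)
  let A : Subring T :=
    { carrier := {x | ∃ b ∈ A0, b ≠ 0 ∧ b * x ∈ A0}
      one_mem' := ⟨1, one_mem _, h10, by simp⟩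
      zero_mem' := ⟨1, one_mem _, h10, by simp⟩
      mul_mem' := by
        rintro x y ⟨b, hb, hb0, hx⟩ ⟨c, hc, hc0, hy⟩
        refine ⟨b * c, mul_mem hb hc, hmul b hb hb0 c hc0, ?_⟩
        rw [show b * c * (x * y) = (b * x) * (c * y) by ring]
        exact mul_mem hx hy
      add_mem' := by
        rintro x y ⟨b, hb, hb0, hx⟩ ⟨c, hc, hc0, hy⟩
        refine ⟨b * c, mul_mem hb hc, hmul b hb hb0 c hc0, ?_⟩
        rw [show b * c * (x + y) = c * (b * x) + b * (c * y) by ring]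
        exact add_mem (mul_mem hc hx) (mul_mem hb hy)
      neg_mem' := by
        rintro x ⟨b, hb, hb0, hx⟩
        exact ⟨b, hb, hb0, by rw [mul_neg]; exact neg_mem hx⟩ }
  refine ⟨A, ?_, ?_, ?_⟩
  · rintro x ⟨b, hb, hb0, hx⟩ hxQ
    by_contra hx0
    exact hmul b hb hb0 x hx0 (hS _ hx (Q.mul_mem_left b hxQ))
  · intro f hf t
    obtain ⟨x, hx, z, hz⟩ := hsur f hf t
    exact ⟨x, ⟨1, one_mem _, h10, by simpa using Subring.subset_closure hx⟩, z, hz⟩
  · rintro f ⟨b, hb, hb0, hf⟩ hf0 z ⟨c, hc, hc0, hz⟩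
    refine ⟨c * (b * f), mul_mem hc hf, hmul c hc hc0 _ (hmul b hb hb0 f hf0), ?_⟩
    rw [show c * (b * f) * z = b * (c * (f * z)) by ring]
    exact mul_mem hb hz

/-- The statement in prime characteristic. -/
theorem hide_char (p : ℕ) (T : Type) [CommRing T] [CharP T p] (Q : Ideal T) (hp : p.Prime)
    (hQ : Q.IsPrime) (nzd : ∀ c : T, c ∉ Q → ∀ x : T, c * x = 0 → x = 0)
    (h1 : ℵ₀ < Cardinal.mk (T ⧸ Q)) (h2 : Cardinal.mk T ≤ Cardinal.mk (T ⧸ Q)) :
    ∃ A : Subring T, (∀ a ∈ A, a ∈ Q → a = 0) ∧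
      (∀ f : T, f ∉ Q → ∀ t : T, ∃ a ∈ A, ∃ z : T, t = a + f * z) ∧
      (∀ f ∈ A, f ≠ 0 → ∀ z : T, f * z ∈ A → z ∈ A) := by
  refine hide2 T Q (fun n hn => ?_) hQ nzd h1 h2
  by_contra h0
  have hd : ¬ (p : ℤ) ∣ n := fun h => h0 ((CharP.intCast_eq_zero_iff T p n).2 h)
  have hc : IsCoprime (p : ℤ) n :=
    (Irreducible.coprime_iff_not_dvd (Nat.prime_iff_prime_int.1 hp).irreducible).2 hd
  obtain ⟨u, v, huv⟩ := hc
  have e : ((u * p + v * n : ℤ) : T) = 1 := by rw [huv]; simp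
  push_cast at e
  rw [CharP.cast_eq_zero T p, mul_zero, zero_add] at e
  exact hQ.ne_top ((Ideal.eq_top_iff_one Q).2 (e ▸ Q.mul_mem_left _ hn))

end Pool.Agent.MP_961ca8_al.H90
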